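import Pool.Agent.Helper75.Reducts.Defs

/-!
# MP_a81937_lc, module J4: a structure interpreted in `(ℕ; =)` carries an action of `Perm ℕ`
by automorphisms, with finite supports and finitely many orbits.
-/

namespace Reducts
open FirstOrder

/-- A permutation as an automorphism of the empty-language structure. -/
def emptyAut [Language.empty.Structure ℕ] (g : Equiv.Perm ℕ) : ℕ ≃[Language.empty] ℕ where
  toEquiv := g
  map_fun' := fun f _ => f.elim
  map_rel' := fun r _ => r.elim

/-- Sets definable in the empty language are invariant under all permutations. -/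
theorem definable_inv [Language.empty.Structure ℕ] {α : Type*} {s : Set (α → ℕ)}
    (hs : (∅ : Set ℕ).Definable Language.empty s) (g : Equiv.Perm ℕ) (x : α → ℕ) :
    (fun i => g (x i)) ∈ s ↔ x ∈ s := by
  obtain ⟨φ, hφ⟩ := Set.empty_definable_iff.1 hs
  subst hφ
  exact Language.StrongHomClass.realize_formula (emptyAut g) φ

/-- J4 -/
theorem interp_action [Language.empty.Structure ℕ] {L : Language} {B : Type*} [L.Structure B] {d : ℕ} {D : Set (Fin d → ℕ)}
    (hD : (∅ : Set ℕ).Definable Language.empty D) (h : D → B) (hsurj : Function.Surjective h)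
    (hat : ∀ (k : ℕ) (φ : L.Formula (Fin k)), φ.IsAtomic →
      (∅ : Set ℕ).Definable Language.empty {t : Fin k × Fin d → ℕ |
        ∃ ht : ∀ i : Fin k, (fun j => t (i, j)) ∈ D, φ.Realize (fun i => h ⟨_, ht i⟩)}) :
    ∃ _ : MulAction (Equiv.Perm ℕ) B, FinSupp B ∧ OrbFin B ∧
      ∀ g : Equiv.Perm ℕ, ∃ f : B ≃[L] B, ∀ b, f b = g • b := by
  classical
  -- the action on `D`
  have hDg : ∀ (g : Equiv.Perm ℕ) (x : Fin d → ℕ), x ∈ D → (fun i => g (x i)) ∈ D :=
    fun g x hx => (definable_inv hD g x).2 hx
  let act : Equiv.Perm ℕ → D → D := fun g x => ⟨fun i => g (x.1 i), hDg g x.1 x.2⟩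
  -- every atomic formula is invariant
  have key : ∀ (k : ℕ) (φ : L.Formula (Fin k)), φ.IsAtomic → ∀ (g : Equiv.Perm ℕ) (x : Fin k → D),
      φ.Realize (fun i => h (act g (x i))) ↔ φ.Realize (fun i => h (x i)) := by
    intro k φ hφ g x
    have := definable_inv (hat k φ hφ) g (fun p : Fin k × Fin d => (x p.1).1 p.2)
    constructor
    · intro H
      obtain ⟨_, h2⟩ := this.1 ⟨fun i => (act g (x i)).2, H⟩
      exact h2
    · intro H
      obtain ⟨_, h2⟩ := this.2 ⟨fun i => (x i).2, H⟩
      exact h2
  have heq : ∀ (g : Equiv.Perm ℕ) (x y : D), h x = h y → h (act g x) = h (act g y) := by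
    intro g x y hxy
    have h1 : (Language.Term.equal (Language.var (0 : Fin 2)) (Language.var (1 : Fin 2)) : L.Formula (Fin 2)).IsAtomic := by
      unfold Language.Term.equal
      exact Language.BoundedFormula.IsAtomic.equal _ _
    have h2 := (key 2 _ h1 g ![x, y]).2
    rw [Language.Formula.realize_equal, Language.Formula.realize_equal] at h2
    simpa using h2 (by simpa using hxy)
  let s : B → D := Function.surjInv hsurj
  have hs : ∀ b, h (s b) = b := Function.surjInv_eq hsurj
  have hact1 : ∀ x : D, act 1 x = x := fun x => rfl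
  have hactm : ∀ (g k : Equiv.Perm ℕ) (x : D), act (g * k) x = act g (act k x) := fun g k x => rfl
  let A : MulAction (Equiv.Perm ℕ) B :=
    { smul := fun g b => h (act g (s b))
      one_smul := fun b => by
        change h (act 1 (s b)) = b
        rw [hact1, hs]
      mul_smul := fun g k b => by
        change h (act (g * k) (s b)) = h (act g (s (h (act k (s b)))))
        rw [hactm]
        exact heq g _ _ (hs _).symm }
  have hsm : ∀ (g : Equiv.Perm ℕ) (x : D), g • (h x) = h (act g x) := fun g x =>
    heq g _ _ (hs _)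
  refine ⟨A, ?_, ?_, ?_⟩
  · intro b
    refine ⟨Finset.univ.image (s b).1, fun g hg => ?_⟩
    have : act g (s b) = s b := Subtype.ext (funext fun i => hg _ (Finset.mem_image_of_mem _ (Finset.mem_univ i)))
    change h (act g (s b)) = b
    rw [this, hs]
  · -- finitely many orbits
    have hfin : (Set.range fun f : {f : Fin d → Fin d // (fun i => (f i : ℕ)) ∈ D} => h ⟨_, f.2⟩).Finite :=
      Set.finite_range _
    refine ⟨hfin.toFinset, fun b => ?_⟩
    -- `x = g ∘ f` with `f` having values in `Fin d`
    obtain ⟨x, rfl⟩ := hsurj b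
    have hex : ∃ (g : Equiv.Perm ℕ) (f : Fin d → Fin d), ∀ i, x.1 i = g (f i) := by
      -- choose a representative index for each value
      let f : Fin d → Fin d := fun i => Classical.choose (⟨i, rfl⟩ : ∃ j, x.1 j = x.1 i)
      have hf : ∀ i, x.1 (f i) = x.1 i := fun i => Classical.choose_spec (⟨i, rfl⟩ : ∃ j, x.1 j = x.1 i)
      have hff : ∀ a b, x.1 a = x.1 b → f a = f b := by
        intro a b hab
        have : (fun j => x.1 j = x.1 a) = (fun j => x.1 j = x.1 b) := by rw [hab]
        change Classical.choose _ = Classical.choose _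
        congr 1
      -- the finite partial injection `f i ↦ x i`
      let e : (Set.range fun i => (f i : ℕ)) ≃ (Set.range x.1) := by
        refine Equiv.ofBijective (fun a => ⟨x.1 (Classical.choose a.2), ⟨_, rfl⟩⟩) ⟨?_, ?_⟩
        · intro a b hab
          have hab' : x.1 (Classical.choose a.2) = x.1 (Classical.choose b.2) := congrArg Subtype.val hab
          have ha := Classical.choose_spec a.2
          have hb := Classical.choose_spec b.2
          apply Subtype.ext
          rw [← ha, ← hb]
          change ((f (Classical.choose a.2) : Fin d) : ℕ) = (f (Classical.choose b.2) : Fin d)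
          rw [hff _ _ hab']
        · rintro ⟨_, ⟨i, rfl⟩⟩
          refine ⟨⟨(f i : ℕ), ⟨i, rfl⟩⟩, Subtype.ext ?_⟩
          have h1 := Classical.choose_spec (⟨i, rfl⟩ : ∃ j, (fun i => (f i : ℕ)) j = (f i : ℕ))
          change x.1 (Classical.choose (⟨i, rfl⟩ : ∃ j, (fun i => (f i : ℕ)) j = (f i : ℕ))) = x.1 i
          have h2 : f (Classical.choose (⟨i, rfl⟩ : ∃ j, (fun i => (f i : ℕ)) j = (f i : ℕ))) = f i :=
            Fin.ext h1
          rw [← hf, h2, hf]
      have he : ∀ i, (e ⟨(f i : ℕ), ⟨i, rfl⟩⟩ : ℕ) = x.1 i := by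
        intro i
        have h1 := Classical.choose_spec (⟨i, rfl⟩ : ∃ j, (fun i => (f i : ℕ)) j = (f i : ℕ))
        change x.1 (Classical.choose (⟨i, rfl⟩ : ∃ j, (fun i => (f i : ℕ)) j = (f i : ℕ))) = x.1 i
        have h2 : f (Classical.choose (⟨i, rfl⟩ : ∃ j, (fun i => (f i : ℕ)) j = (f i : ℕ))) = f i :=
          Fin.ext h1
        rw [← hf, h2, hf]
      have hc1 : (Set.range fun i => (f i : ℕ)).Finite := Set.finite_range _
      have hc2 : (Set.range x.1).Finite := Set.finite_range _
      have hcc : Nonempty (((Set.range fun i => (f i : ℕ))ᶜ : Set ℕ) ≃ ((Set.range x.1)ᶜ : Set ℕ)) := by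
        have := hc1.infinite_compl.to_subtype
        have := hc2.infinite_compl.to_subtype
        exact ⟨Classical.choice nonempty_equiv_of_countable⟩
      obtain ⟨e2⟩ := hcc
      refine ⟨(Equiv.Set.sumCompl _).symm.trans ((Equiv.sumCongr e e2).trans (Equiv.Set.sumCompl _)), f, fun i => ?_⟩
      have hm : (f i : ℕ) ∈ Set.range fun i => (f i : ℕ) := ⟨i, rfl⟩
      rw [Equiv.trans_apply, Equiv.trans_apply, Equiv.Set.sumCompl_symm_apply_of_mem hm]
      simp only [Equiv.sumCongr_apply, Sum.map_inl, Equiv.Set.sumCompl_apply_inl]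
      exact (he i).symm
    obtain ⟨g, f, hgf⟩ := hex
    have hfD : (fun i => (f i : ℕ)) ∈ D := by
      refine (definable_inv hD g _).1 ?_
      have : (fun i => g (f i : ℕ)) = x.1 := funext fun i => (hgf i).symm
      rw [this]; exact x.2
    refine ⟨g, h ⟨_, hfD⟩, ?_, ?_⟩
    · rw [Set.Finite.mem_toFinset]
      exact ⟨⟨f, hfD⟩, rfl⟩
    · rw [hsm]
      congr 1
      exact Subtype.ext (funext fun i => hgf i)
  · intro g
    refine ⟨{ toEquiv := MulAction.toPerm g, map_fun' := ?_, map_rel' := ?_ }, fun b => rfl⟩
    · intro n f x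
      change g • (Language.Structure.funMap f x) = Language.Structure.funMap f (fun i => g • x i)
      have h1 : (Language.Formula.graph f : L.Formula (Fin (n+1))).IsAtomic := by
        unfold Language.Formula.graph Language.Term.equal
        exact Language.BoundedFormula.IsAtomic.equal _ _
      have h2 := (key (n+1) _ h1 g (fun i => s ((Fin.cons (Language.Structure.funMap f x) x : Fin (n+1) → B) i))).2
      have e1 : (fun i => h (s ((Fin.cons (Language.Structure.funMap f x) x : Fin (n+1) → B) i))) =
          (Fin.cons (Language.Structure.funMap f x) x : Fin (n+1) → B) := funext fun i => hs _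
      have e2 : (fun i => h (act g (s ((Fin.cons (Language.Structure.funMap f x) x : Fin (n+1) → B) i)))) =
          (Fin.cons (g • Language.Structure.funMap f x) (fun i => g • x i) : Fin (n+1) → B) := by
        funext i
        refine Fin.cases ?_ (fun j => ?_) i
        · rw [Fin.cons_zero]; rfl
        · rw [Fin.cons_succ]; rfl
      rw [e1, e2, Language.Formula.realize_graph, Language.Formula.realize_graph] at h2
      exact (h2 rfl).symm
    · intro n r x
      change Language.Structure.RelMap r (fun i => g • x i) ↔ Language.Structure.RelMap r x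
      have h1 : (r.formula (fun i => Language.var i) : L.Formula (Fin n)).IsAtomic := by
        unfold Language.Relations.formula
        exact Language.BoundedFormula.IsAtomic.rel _ _
      have h2 := key n _ h1 g (fun i => s (x i))
      have e1 : (fun i => h (s (x i))) = x := funext fun i => hs _
      rw [e1, Language.Formula.realize_rel, Language.Formula.realize_rel] at h2
      exact h2

end Reducts
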